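import Pool.Agent.H71Z.KK.GridD

namespace Pool.Agent.Results.MP_d0893a_co.AGridIncrement

open Pool.Agent.H71Z.KK

theorem result :
    ∀ L : ℝ, 0 < L → ∃ L' : ℝ, 0 < L' ∧ ∃ δ : ℝ, 0 < δ ∧
      ∀ k n : ℕ, 0 < k → 0 < n → ∀ A : Finset (Fin n → Fin k),
        (A.card : ℝ) / (k : ℝ) ^ n ≤ 1 / 2 →
        (gridBoundary A : ℝ) ≤ L * minBoundary k n A.card →
        ∃ S : Fin n → Finset (Fin k), (Fintype.piFinset S).Nonempty ∧
          ((A.card : ℝ) / (k : ℝ) ^ n) ^ L' ≤ ((Fintype.piFinset S).card : ℝ) / (k : ℝ) ^ n ∧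
          (1 + δ) * ((A.card : ℝ) / (k : ℝ) ^ n) ≤
            ((A ∩ Fintype.piFinset S).card : ℝ) / ((Fintype.piFinset S).card : ℝ) := by
  intro L hL
  obtain ⟨L', hL', H⟩ := grid_incr L hL
  exact ⟨L', hL', 1 / 4, by norm_num, H⟩

end Pool.Agent.Results.MP_d0893a_co.AGridIncrement
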